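import Pool.Agent.W2helper36.RF.E

/-!
# Random forms of large degree have no zero of height `≤ H^A`, `A < (d+1)/(n+1)`
(MP_6e60ff_nt)

Let `d > n + 1`. Among the nonzero integral forms of degree `d` in `n + 1` variables and of height at
most `H` the proportion of those with a nontrivial integral zero of height at most `B` is at least
`c / H` and at most `C (1 / H + B^(n+1) / H^(d+1))`. So it is of the exact order `1 / H` for
`1 ≤ B ≤ H^(d/(n+1))`, and it tends to zero for `B = H^A`, `A < (d+1)/(n+1)`; note that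
`(d+1)/(n+1) > 1`.

Proof. Let `x` be primitive with largest coordinate `x_0 = ± q`. Reading `f(x) = t` modulo `q`
successively `d` times gives `d` linear congruences modulo `q`, for the coefficients of the
monomials `x_0^j x_i^(d-j)`, `j = 0, ..., d-1`, and at the end the coefficient of `x_0^d` is
determined. A congruence `∑ v_i y_i ≡ t` modulo `q` with `gcd(y_1, ..., y_n, q) = 1` holds for at
most a proportion `3^n (1/q + 1/(2H+1))` of the vectors `v` of the box `[-H, H]^n`. So the
proportion of the forms with `f(x) = 0` is `≪ (1/q + 1/H)^d / H`, and the sum over `x` of height at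
most `B` is as stated.
-/

set_option autoImplicit false
open Filter Topology

namespace Pool.Agent.Results.MP_6e60ff_nt.ZerosOfBoundedHeight

/-- The exponents `(a_0, ..., a_n)` with `a_0 + ... + a_n = d` of the monomials of degree `d`. -/
abbrev Expo (n d : ℕ) : Type := ↥(Finset.Nat.antidiagonalTuple (n + 1) d)

/-- A form of degree `d` in `x_0, ..., x_n` is given by its coefficients `c a`, one for each exponent
`a`; this is its value `∑ c a * x_0^(a_0) ⋯ x_n^(a_n)` at `x`. -/
def value {n d : ℕ} (c : Expo n d → ℤ) (x : Fin (n + 1) → ℤ) : ℤ :=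
  ∑ a, c a * ∏ i, x i ^ (a.1 i)

/-- The nonzero integral forms of degree `d` in `n + 1` variables of height at most `H` (the height
is the maximum of the absolute values of the coefficients). -/
def forms (n d H : ℕ) : Set (Expo n d → ℤ) := {c | c ≠ 0 ∧ ∀ a, |c a| ≤ H}

/-- Those which have a zero `x ∈ ℤ^(n+1)`, `x ≠ 0`, with `|x_i| ≤ B` for all `i`. -/
def formsWithZero (n d H : ℕ) (B : ℝ) : Set (Expo n d → ℤ) :=
  {c | c ∈ forms n d H ∧ ∃ x : Fin (n + 1) → ℤ, x ≠ 0 ∧ (∀ i, |(x i : ℝ)| ≤ B) ∧ value c x = 0}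

theorem result (n d : ℕ) (hn : 1 ≤ n) (hd : n + 1 < d) :
    (∃ c C : ℝ, 0 < c ∧ 0 < C ∧ ∀ (H : ℕ) (B : ℝ), 1 ≤ H → 1 ≤ B →
      c / H ≤ ((formsWithZero n d H B).ncard : ℝ) / ((forms n d H).ncard : ℝ) ∧
      ((formsWithZero n d H B).ncard : ℝ) / ((forms n d H).ncard : ℝ) ≤
        C * (1 / H + B ^ (n + 1) / (H : ℝ) ^ (d + 1))) ∧
    ∀ A : ℝ, A < (d + 1) / (n + 1) →
      Tendsto (fun H : ℕ => ((formsWithZero n d H ((H : ℝ) ^ A)).ncard : ℝ) /
        ((forms n d H).ncard : ℝ)) atTop (𝓝 0) := by
  constructor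
  · obtain ⟨C, hC0, hC⟩ := Pool.Agent.W2helper36.RF.upper n d hd
    refine ⟨1 / 6, C, by norm_num, hC0, fun H B hH hB => ?_⟩
    have hHR : (0 : ℝ) < H := by exact_mod_cast hH
    have hpos : (0 : ℝ) < ((forms n d H).ncard : ℝ) := by
      have h1 := (Pool.Agent.W2helper36.RF.card_forms_ge n d H hH).1
      have h2 : (0 : ℝ) < ((2 * H + 1 : ℕ) : ℝ) ^ (Fintype.card (Expo n d)) := by positivity
      change (0 : ℝ) < ((Pool.Agent.W2helper36.RF.forms n d H).ncard : ℝ)
      linarith
    constructor
    · rw [le_div_iff₀ hpos]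
      have h := Pool.Agent.W2helper36.RF.lower n d H B hn (by omega) hH hB
      refine le_trans (le_of_eq ?_) h
      change 1 / 6 / (H : ℝ) * ((Pool.Agent.W2helper36.RF.forms n d H).ncard : ℝ) = _
      field_simp
    · rw [div_le_iff₀ hpos]
      exact hC H B hH (by linarith)
  · intro A hA
    have hn0 : (0 : ℝ) < (n : ℝ) + 1 := by positivity
    rw [lt_div_iff₀ hn0] at hA
    exact Pool.Agent.W2helper36.RF.density n d hd A hA

end Pool.Agent.Results.MP_6e60ff_nt.ZerosOfBoundedHeight
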